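import Pool.Agent.NDR.StmtsG

/-!
# Squad NDR, block G, row GLW (helper58): wall crossing
-/

set_option autoImplicit false

namespace Pool.Agent.NDR.H58

open Finset

section coeffs

variable {ι K : Type} [Field K]

theorem tht_coeff (v : ι) (h : Lr K ι) (m : ι → ℤ) :
    (tht v h).coeff m = ((m v : ℤ) : K) * h.coeff m := by
  classical
  unfold tht
  rw [AddMonoidAlgebra.coeff_ofCoeff, Finsupp.sum_apply, Finsupp.sum, Finset.sum_eq_single m]
  · simp
  · intro b _ hb
    simp [hb]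
  · intro hm
    simp only [Finsupp.mem_support_iff, not_not] at hm
    simp [hm]

theorem cut_coeff (Q : Set (ι → ℤ)) (h : Lr K ι) (m : ι → ℤ) [Decidable (m ∈ Q)] :
    (cut Q h).coeff m = if m ∈ Q then h.coeff m else 0 := by
  classical
  unfold cut
  rw [AddMonoidAlgebra.coeff_ofCoeff, Finsupp.filter_apply]
  split_ifs <;> simp_all

theorem tht_cut (v : ι) (Q : Set (ι → ℤ)) (h : Lr K ι) : tht v (cut Q h) = cut Q (tht v h) := by
  classical
  apply AddMonoidAlgebra.ext
  apply Finsupp.ext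
  intro m
  rw [tht_coeff, cut_coeff, cut_coeff, tht_coeff]
  split_ifs <;> simp

theorem opg_cut (Q : Set (ι → ℤ)) (f : Lr K ι) (η : ℕ → Lr K ι) (j : ι ⊕ ℕ) :
    opg (cut Q f) (fun k => cut Q (η k)) j = cut Q (opg f η j) := by
  cases j with
  | inl i => exact tht_cut i Q f
  | inr k => rfl

theorem cut_cut {Q Q' : Set (ι → ℤ)} (h : Q ⊆ Q') (g : Lr K ι) : cut Q (cut Q' g) = cut Q g := by
  classical
  apply AddMonoidAlgebra.ext
  apply Finsupp.ext
  intro m
  rw [cut_coeff, cut_coeff, cut_coeff]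
  by_cases h1 : m ∈ Q
  · rw [if_pos h1, if_pos (h h1), if_pos h1]
  · rw [if_neg h1, if_neg h1]

theorem opg_mem {S : Set (ι → ℤ)} {f : Lr K ι} {η : ℕ → Lr K ι} (hf : f ∈ MS K S)
    (hη : ∀ k, η k ∈ MS K S) (j : ι ⊕ ℕ) : opg f η j ∈ MS K S := by
  cases j with
  | inl i =>
    intro m hm
    apply hf m
    intro h0
    apply hm
    change (tht i f).coeff m = 0
    rw [tht_coeff, h0, mul_zero]
  | inr k => exact hη k

theorem mul_mem {Q : Set (ι → ℤ)} {a r : Lr K ι}
    (ha : ∀ m, a.coeff m ≠ 0 → ∀ e ∈ Q, e + m ∈ Q) (hr : r ∈ MS K Q) : a * r ∈ MS K Q := by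
  classical
  intro m hm
  rw [AddMonoidAlgebra.coeff_mul] at hm
  obtain ⟨m₁, h1, h2⟩ := Finset.exists_ne_zero_of_sum_ne_zero hm
  obtain ⟨m₂, h3, h4⟩ := Finset.exists_ne_zero_of_sum_ne_zero h2
  by_cases h5 : m₁ + m₂ = m
  · rw [← h5, add_comm]
    exact ha m₁ (Finsupp.mem_support_iff.1 h1) m₂ (hr m₂ (Finsupp.mem_support_iff.1 h3))
  · exact absurd (if_neg h5) h4

end coeffs

section faces

variable {ι : Type} [Fintype ι]

theorem isF_sub {I : Finset ι} {A F : Finset (ι → ℤ)} (h : IsF I A F) : F ⊆ A := by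
  induction h with
  | base => exact Finset.Subset.refl _
  | step F ψ _ _ _ ih => exact (Finset.filter_subset _ _).trans ih

theorem isF_trans {I : Finset ι} {A F G : Finset (ι → ℤ)} (h : IsF I A F) (h' : IsF I F G) :
    IsF I A G := by
  induction h' with
  | base => exact h
  | step G ψ _ h1 h2 ih => exact IsF.step G ψ ih h1 h2

omit [Fintype ι] in
theorem ov_mono {I : Finset ι} {A F : Finset (ι → ℤ)} (h : F ⊆ A) : ov I F ⊆ ov I A := by
  rintro e ⟨a, ha, h1⟩
  exact ⟨a, h ha, h1⟩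

omit [Fintype ι] in
theorem inS_add {I : Finset ι} {A : Finset (ι → ℤ)} {v : ι → ℝ} {e m : ι → ℤ}
    (h : InS I A (shv v e)) (hm : m ∈ ov I A) : InS I A (shv v (e + m)) := by
  classical
  obtain ⟨l, hl⟩ := h
  obtain ⟨a, ha, h1⟩ := hm
  refine ⟨fun b => l b + if b = a then 1 else 0, ?_⟩
  intro i hi
  have h2 := hl i hi
  unfold shv at h2 ⊢
  have h3 : ∑ b ∈ A, (l b + if b = a then (1 : ℝ) else 0) * ((b i : ℤ) : ℝ) =
      ∑ b ∈ A, l b * ((b i : ℤ) : ℝ) + ((a i : ℤ) : ℝ) := by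
    simp only [add_mul, Finset.sum_add_distrib]
    congr 1
    rw [Finset.sum_eq_single a]
    · simp
    · intro b _ hb
      simp [hb]
    · intro hb
      exact absurd ha hb
  rw [h3, ← h2]
  simp only [Pi.add_apply]
  rw [h1 i hi]
  push_cast
  ring

omit [Fintype ι] in
theorem inC_add {I : Finset ι} {A : Finset (ι → ℤ)} {v : ι → ℝ} {e m : ι → ℤ}
    (h : InC I A (shv v e)) (hm : m ∈ ov I A) : InC I A (shv v (e + m)) := by
  classical
  obtain ⟨l, hl0, hl⟩ := h
  obtain ⟨a, ha, h1⟩ := hm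
  refine ⟨fun b => l b + if b = a then 1 else 0, ?_, ?_⟩
  · intro b
    have := hl0 b
    dsimp only
    split_ifs <;> linarith
  intro i hi
  have h2 := hl i hi
  unfold shv at h2 ⊢
  have h3 : ∑ b ∈ A, (l b + if b = a then (1 : ℝ) else 0) * ((b i : ℤ) : ℝ) =
      ∑ b ∈ A, l b * ((b i : ℤ) : ℝ) + ((a i : ℤ) : ℝ) := by
    simp only [add_mul, Finset.sum_add_distrib]
    congr 1
    rw [Finset.sum_eq_single a]
    · simp
    · intro b _ hb
      simp [hb]
    · intro hb
      exact absurd ha hb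
  rw [h3, ← h2]
  simp only [Pi.add_apply]
  rw [h1 i hi]
  push_cast
  ring

omit [Fintype ι] in
theorem inC_inS {I : Finset ι} {A : Finset (ι → ℤ)} {q : ι → ℝ} (h : InC I A q) : InS I A q := by
  obtain ⟨l, _, hl⟩ := h
  exact ⟨l, hl⟩

omit [Fintype ι] in
theorem dd_add {D : Finset ι} {e m : ι → ℤ} (h : e ∈ dd D) (hm : m ∈ dd D) : e + m ∈ dd D := by
  intro j hj
  rw [Pi.add_apply, h j hj, hm j hj, add_zero]

end faces

/-- the case `A = ∅`: no chains of large degree -/
theorem triv {T R : Type} [CommRing R] (a : T → R) (S : Finset T) (N : AddSubgroup R) (i : ℕ)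
    (h : S.card < i) : ExP a S N ⊥ i := by
  classical
  intro x hx _
  have h0 : ∀ U, x U = 0 := by
    intro U
    by_contra hU
    obtain ⟨h1, h2⟩ := (hx U).2 hU
    have := Finset.card_le_card h1
    omega
  refine ⟨fun _ => 0, fun U => ⟨N.zero_mem, fun h => absurd rfl h⟩, fun U => ?_⟩
  rw [h0 U, AddSubgroup.mem_bot, zero_sub, neg_eq_zero]
  unfold kd
  simp

theorem glw (h1 : WamStmt) (h2 : KadStmt) (h3 : TorStmt) (h4 : PaiStmt) (h5 : BsfStmt)
    (h6 : WlkStmt) : GlwStmt := by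
  classical
  intro ι _ K _ _ I D _hID A
  induction A using Finset.strongInduction with
  | H A ih =>
  intro f s η hf hη hF v T hT i hi
  rcases A.eq_empty_or_nonempty with hA | hA
  · -- `A = ∅`
    have hT0 : T = ∅ := by
      by_contra hne
      obtain ⟨j, hj⟩ := Finset.nonempty_iff_ne_empty.2 hne
      have := hT.2.2 (fun _ => 1) (by intro a ha; rw [hA] at ha; simp at ha) j hj
      exact absurd this one_ne_zero
    apply triv
    rw [hT0]
    unfold ix
    rw [Finset.card_disjSum, Finset.card_empty, Finset.card_range]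
    omega
  -- `A ≠ ∅`
  obtain ⟨time, t1, t2, t3, t4, t5, t6⟩ := h1 ι I A v
  have hop : ∀ j, opg f η j ∈ MS K (ov I A ∩ dd D) := opg_mem hf hη
  have hmove : ∀ m ∈ ov I A ∩ dd D, ∀ e ∈ TG I D A v,
      e + m ∈ TG I D A v ∧ time (e + m) ≤ time e := by
    intro m hm e he
    refine ⟨⟨inS_add he.1 hm.1, dd_add he.2 hm.2⟩, ?_⟩
    obtain ⟨a, ha, h⟩ := hm.1
    have h7 : time (e + m) = time (e + a) := by
      apply t1
      intro i hi
      rw [Pi.add_apply, Pi.add_apply, h i hi]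
    rw [h7]
    exact t4 e a ha
  have hRG : RG I D A v = {e | e ∈ TG I D A v ∧ time e = 0} := by
    ext e
    constructor
    · intro he
      have h7 : InS I A (shv v e) := inC_inS he.1
      exact ⟨⟨h7, he.2⟩, (t3 e h7).2 he.1⟩
    · intro he
      exact ⟨(t3 e he.1.1).1 he.2, he.1.2⟩
  rw [hRG]
  apply h6 (ι ⊕ ℕ) ι K (opg f η) (ix T s) (TG I D A v) time i t2 t5
  · intro j _ m hm e he
    exact hmove m (hop j m hm) e he
  · exact h3 ι K I D A f s η hf hη (hF A IsF.base hA) v T hT i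
  intro e₀ he₀ ht
  obtain ⟨ψ, v', p1, p2, p3, p4, p5, p6⟩ := t6 e₀ he₀.1 ht
  -- the facet
  set A' : Finset (ι → ℤ) := A.filter fun a => pr ψ a = 0 with hA'
  have hsub : A' ⊂ A := by
    obtain ⟨a, ha, hp⟩ := p3
    refine Finset.filter_ssubset.2 ⟨a, ha, hp.ne'⟩
  have hface : IsF I A A' := IsF.step A ψ IsF.base p1 p2
  obtain ⟨j₀, hj₀, hB⟩ := h5 ι I A T ψ hT p1 (by
    obtain ⟨a, ha, hp⟩ := p3
    exact ⟨a, ha, hp.ne'⟩) p6
  have hf' : cut (ov I A') f ∈ MS K (ov I A' ∩ dd D) := by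
    intro m hm
    rw [cut_coeff] at hm
    by_cases h7 : m ∈ ov I A'
    · rw [if_pos h7] at hm
      exact ⟨h7, (hf m hm).2⟩
    · rw [if_neg h7] at hm
      exact absurd rfl hm
  have hη' : ∀ k, cut (ov I A') (η k) ∈ MS K (ov I A' ∩ dd D) := by
    intro k m hm
    rw [cut_coeff] at hm
    by_cases h7 : m ∈ ov I A'
    · rw [if_pos h7] at hm
      exact ⟨h7, (hη k m hm).2⟩
    · rw [if_neg h7] at hm
      exact absurd rfl hm
  have hex := ih A' hsub (cut (ov I A') f) s (fun k => cut (ov I A') (η k)) hf' hη' (by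
    intro F hF' hne
    obtain ⟨b, b', hb⟩ := hF F (isF_trans hface hF') hne
    refine ⟨b, b', ?_⟩
    have h7 : ov I F ⊆ ov I A' := ov_mono (isF_sub hF')
    simp only [cut_cut h7]
    exact hb) v' (T.erase j₀) hB
  -- the slices
  have hQ : RG I D A' v' = {e | e ∈ TG I D A v ∧ time e = time e₀} := by
    ext e
    constructor
    · intro he
      have h7 := (p4 e).2 he.1
      exact ⟨⟨h7.1, he.2⟩, h7.2⟩
    · intro he
      exact ⟨(p4 e).1 ⟨he.1.1, he.2⟩, he.1.2⟩
  have hQu : {e | e ∈ TG I D A v ∧ time e ≤ time e₀} =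
      RG I D A' v' ∪ {e | e ∈ TG I D A v ∧ time e < time e₀} := by
    rw [hQ]
    ext e
    constructor
    · intro he
      rcases he.2.eq_or_lt with h7 | h7
      · exact Or.inl ⟨he.1, h7⟩
      · exact Or.inr ⟨he.1, h7⟩
    · rintro (he | he)
      · exact ⟨he.1, he.2.le⟩
      · exact ⟨he.1, he.2.le⟩
  have hix : ix T s = insert (Sum.inl j₀) (ix (T.erase j₀) s) := by
    ext j
    unfold ix
    cases j with
    | inl i =>
      simp only [Finset.inl_mem_disjSum, Finset.mem_insert, Finset.mem_erase, Sum.inl.injEq]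
      constructor
      · intro h7
        by_cases h8 : i = j₀
        · exact Or.inl h8
        · exact Or.inr ⟨h8, h7⟩
      · rintro (h7 | h7)
        · rw [h7]
          exact hj₀
        · exact h7.2
    | inr k =>
      simp only [Finset.inr_mem_disjSum, Finset.mem_insert]
      constructor
      · intro h7
        exact Or.inr h7
      · rintro (h7 | h7)
        · cases h7
        · exact h7
  have hnot : (Sum.inl j₀ : ι ⊕ ℕ) ∉ ix (T.erase j₀) s := by
    unfold ix
    simp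
  have hopA' : ∀ j, opg (cut (ov I A') f) (fun k => cut (ov I A') (η k)) j ∈
      MS K (ov I A' ∩ dd D) := opg_mem hf' hη'
  have hmove' : ∀ m ∈ ov I A' ∩ dd D, ∀ e ∈ RG I D A' v', e + m ∈ RG I D A' v' := by
    intro m hm e he
    exact ⟨inC_add he.1 hm.1, dd_add he.2 hm.2⟩
  have hkad : ExP (opg (cut (ov I A') f) (fun k => cut (ov I A') (η k))) (ix T s)
      (MS K (RG I D A' v')) ⊥ (i + 1) := by
    rw [hix]
    apply h2 (ι ⊕ ℕ) (Lr K ι) _ (ix (T.erase j₀) s) (Sum.inl j₀) (MS K (RG I D A' v')) (s + 1) hnot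
    · intro j _ r hr
      exact mul_mem (fun m hm e he => hmove' m (hopA' j m hm) e he) hr
    · intro i' hi'
      exact hex i' hi'
    · omega
  rw [hQu]
  apply h4 (ι ⊕ ℕ) ι K (opg f η) (opg (cut (ov I A') f) (fun k => cut (ov I A') (η k))) (ix T s)
    (RG I D A' v') {e | e ∈ TG I D A v ∧ time e < time e₀} (i + 1)
  · rw [hQ, Set.disjoint_left]
    intro e he he'
    exact he'.2.ne he.2
  · intro j _ m hm e he
    exact hmove' m (hopA' j m hm) e he
  · intro j _ m hm e he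
    rw [opg_cut, AddMonoidAlgebra.coeff_sub, Finsupp.sub_apply, cut_coeff] at hm
    by_cases h7 : m ∈ ov I A'
    · rw [if_pos h7, sub_self] at hm
      exact absurd rfl hm
    rw [if_neg h7, sub_zero] at hm
    have h8 := hop j m hm
    rw [hQ] at he
    obtain ⟨he1, he2⟩ := he
    obtain ⟨a, ha, h9⟩ := h8.1
    have h10 : pr ψ a ≠ 0 := by
      intro h0
      exact h7 ⟨a, Finset.mem_filter.2 ⟨ha, h0⟩, h9⟩
    have h11 : 0 < pr ψ a := lt_of_le_of_ne (p2 a ha) (Ne.symm h10)
    refine ⟨(hmove m h8 e he1).1, ?_⟩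
    have h12 : time (e + m) = time (e + a) := by
      apply t1
      intro i hi
      rw [Pi.add_apply, Pi.add_apply, h9 i hi]
    rw [h12]
    exact p5 e he1.1 he2 a ha h11
  · intro j _ m hm e he
    have h8 := hmove m (hop j m hm) e he.1
    exact ⟨h8.1, lt_of_le_of_lt h8.2 he.2⟩
  · exact hkad

end Pool.Agent.NDR.H58
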