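import Pool.Agent.NDR.StmtsG
import Pool.Agent.Helper58_NDR.GLW
import Pool.Agent.Helper16_NDR.CHO
import Pool.Agent.Helper47_NDR.CNX
import Pool.Agent.Helper46_NDR.CRG
import Pool.Agent.Helper13_NDR.CPH
import Pool.Agent.Helper65_NDR.CDL
import Pool.Agent.Helper23_NDR.CNV
import Pool.Agent.Helper8_NDR.CFR
import Pool.Agent.Helper19_NDR.CNT
import Pool.Agent.Helper39_NDR.CRM
import Pool.Agent.Helper66_NDR.CGE
import Pool.Agent.Helper81_NDR.CEX
import Pool.Agent.Helper77_NDR.CLS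
import Pool.Agent.Helper70_NDR.CLV
import Pool.Agent.Helper86_NDR.CLC
import Pool.Agent.Helper51_NDR.CLE
import Pool.Agent.Helper7_NDR.CID
import Pool.Agent.Helper99_NDR.CDV
import Pool.Agent.Helper60_NDR.WAM
import Pool.Agent.Helper15_NDR.MWE
import Pool.Agent.Helper51_NDR.ZET
import Pool.Agent.Helper77_NDR.KAD
import Pool.Agent.Helper27_NDR.KSG
import Pool.Agent.Helper51_NDR.KUN
import Pool.Agent.Helper7_NDR.PAI
import Pool.Agent.Helper19_NDR.BSF
import Pool.Agent.Helper92_NDR.WLK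
import Pool.Agent.Helper3_NDR.RRZ
import Pool.Agent.Helper88_NDR.RRS
import Pool.Agent.Helper46_NDR.BSE
import Pool.Agent.Helper7_NDR.KHO
import Pool.Agent.Helper41_NDR.SPH
import Pool.Agent.Helper94_NDR.SPI
import Pool.Agent.Helper30_NDR.DEV

/-!
# Squad NDR: assembly of the blocks C and G (helper58)
-/

set_option autoImplicit false

namespace Pool.Agent.NDR.H58

open Pool.Agent.NDR

theorem cidAll : CidStmt := H7.cid H99.cdv

theorem crgAll : CrgStmt := H46.crg (H39.crm H81.cex H77C.cls H70.clv H86.clc H51.cle)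

theorem choAll : ChoStmt := H16.cho (H47.cnx H8.cfr (H19.cnt cidAll)) crgAll (H13.cph H66.cge)
  H65.cdl H23.cnv

theorem glwAll (hTOR : TorStmt) : GlwStmt := glw (H60.wam H15.mwe H51.zet) (H77K.kad H27.ksg) hTOR
  (H7.pai H27.ksg) H19.bsf (H92.wlk H27.ksg)

theorem rrzAll (hTOR : TorStmt) (hKRM : KrmStmt) : RrzStmt := H3.rrz (glwAll hTOR) hKRM

theorem rrsAll (hGEN : GenStmt) (hTRS : TrsStmt) : RrsStmt :=
  H88.rrs H27.ksg H41.sph (H94.spi H27.ksg H41.sph) hGEN hTRS

theorem devAll : DevStmt := H30D.dev cidAll H41.sph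

theorem bseAll : BseStmt := H46.bse

theorem khoAll : KhoStmt := H7.kho H27.ksg

end Pool.Agent.NDR.H58
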