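import Pool.Agent.Helper58_NDR.AsmL
import Pool.Agent.Helper58_NDR.AsmG
import Pool.Agent.Helper34_NDR.KRM
import Pool.Agent.Helper13_NDR.TOR
import Pool.Agent.Helper50_NDR.GEN
import Pool.Agent.Helper47_NDR.TRS
import Pool.Agent.Helper16_NDR.GLA
import Pool.Agent.Helper66_NDR.GLF
import Pool.Agent.Helper13_NDR.FCF
import Pool.Agent.Helper56_NDR.RES

/-!
# Squad NDR: the root side for all nondegenerate polynomials (final assembly, helper58)
-/

set_option autoImplicit false

namespace Pool.Agent.NDR.H58

open Pool.Agent.NDR

theorem torAll : TorStmt := H13.tor (H51.kun_of H27.ksg)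

theorem krmAll : KrmStmt := H34.krm H27.ksg

theorem genAll : GenStmt := H50.gen H41.sph devAll

theorem trsAll : TrsStmt := H47.trs H41.sph

theorem glaAll : GlaStmt := H16.gla (rrzAll torAll krmAll) (rrsAll genAll trsAll) bseAll khoAll

theorem glAll : GLStmt := H66G.glf glaAll H13.fcf

theorem resAll : RESStmt := H56.res glAll choAll

/-- **Root side of the monodromy conjecture for all nondegenerate polynomials.** -/
theorem rootsAll : RootsStmt := roots_of_res resAll

end Pool.Agent.NDR.H58
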