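import Pool.Agent.Helper1_NDL.LPB
import Pool.Agent.Helper13_NDL.LPR
import Pool.Agent.Helper13_NDL.MNF
import Pool.Agent.Helper90_NDL.DGR
import Pool.Agent.Helper50_NDL.WSK
import Pool.Agent.Helper41_NDL.FLT
import Pool.Agent.Helper19_NDR.LEX
import Pool.Agent.Helper39_NDL.PPL
import Pool.Agent.Helper42_NDL.GNR
import Pool.Agent.Helper77_NDL.LPD
import Pool.Agent.Helper27_NDL.FRK
import Pool.Agent.Helper74_BEZ.All
import Pool.Agent.Helper91_NDR.Glue

/-!
# Squad NDR: assembly of block L and of the glue (helper58)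
-/

set_option autoImplicit false

namespace Pool.Agent.NDR.H58

open Pool.Agent.NDR

theorem lprAll : LprStmt := H13.lpr (H19.lex (H77.lpd H27.frk)) H39.ppl H42.gnr

theorem lpbAll : LPBStmt := H1.lpb H13.mnf lprAll H90.dgr H50.wsk H41.flt

/-- the root side from block R -/
theorem roots_of_res (hR : RESStmt) : RootsStmt := H91.glue hR lpbAll BEZ.H74.ndrBez

end Pool.Agent.NDR.H58
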